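import Mathlib

set_option autoImplicit false

namespace Pool.Agent.H.MP_4f47f1_al

open Function Pointwise

abbrev Cl := ∀ (G : Type) [Group G], Prop

def Phi (X : Cl) : Prop :=
  (∀ (G : Type) [Group G], X G → Finite G) ∧
       (∀ (G H : Type) [Group G] [Group H] (f : G →* H),
          Function.Surjective f → X G → X H) ∧
       (∀ (G : Type) [Group G] (N₁ N₂ : Subgroup G) [N₁.Normal] [N₂.Normal],
          N₁ ⊓ N₂ = ⊥ → X (G ⧸ N₁) → X (G ⧸ N₂) → X G)

lemma Phi.iso {X : Cl} (h : Phi X) {G H : Type} [Group G] [Group H] (e : G ≃* H) (hG : X G) :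
    X H := h.2.1 G H e.toMonoidHom e.surjective hG

lemma lift_surj {E H : Type} [Group E] [Group H] (N : Subgroup E) [N.Normal] (g : E →* H)
    (h : N ≤ g.ker) (hg : Surjective g) : Surjective (QuotientGroup.lift N g h) := by
  intro y
  obtain ⟨x, rfl⟩ := hg y
  exact ⟨QuotientGroup.mk x, rfl⟩

lemma Phi.qr {X : Cl} (h : Phi X) {E G1 G2 H : Type} [Group E] [Group G1] [Group G2] [Group H]
    (f1 : E →* G1) (f2 : E →* G2) (g : E →* H) (h1 : Surjective f1) (h2 : Surjective f2)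
    (hg : Surjective g) (x1 : X G1) (x2 : X G2) (hk : f1.ker ⊓ f2.ker ≤ g.ker) : X H := by
  set N := f1.ker ⊓ f2.ker with hN
  let l1 := QuotientGroup.lift N f1 inf_le_left
  let l2 := QuotientGroup.lift N f2 inf_le_right
  have s1 : Surjective l1 := lift_surj N f1 _ h1
  have s2 : Surjective l2 := lift_surj N f2 _ h2
  refine h.2.1 (E ⧸ N) H (QuotientGroup.lift N g hk) (lift_surj N g hk hg) ?_
  refine h.2.2 (E ⧸ N) l1.ker l2.ker ?_ ?_ ?_
  · rw [eq_bot_iff]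
    intro x hx
    obtain ⟨x, rfl⟩ := QuotientGroup.mk_surjective x
    rw [Subgroup.mem_bot, QuotientGroup.eq_one_iff]
    exact ⟨hx.1, hx.2⟩
  · exact h.iso (QuotientGroup.quotientKerEquivOfSurjective l1 s1).symm x1
  · exact h.iso (QuotientGroup.quotientKerEquivOfSurjective l2 s2).symm x2

lemma Phi.triv {X : Cl} (h : Phi X) {G H : Type} [Group G] [Group H] [Subsingleton H] (hG : X G) :
    X H := h.2.1 G H 1 (fun y => ⟨1, Subsingleton.elim _ _⟩) hG

lemma phi_fin : Phi (fun G _ => Finite G) := by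
  refine ⟨fun G _ h => h, fun G H _ _ f hf h => Finite.of_surjective f hf, ?_⟩
  intro G _ N1 N2 _ _ hb h1 h2
  refine Finite.of_injective ((QuotientGroup.mk' N1).prod (QuotientGroup.mk' N2)) ?_
  rw [← MonoidHom.ker_eq_bot_iff, MonoidHom.ker_prod, QuotientGroup.ker_mk', QuotientGroup.ker_mk',
    hb]

@[ext] structure Fm where
  mem : Cl
  ok : Phi mem

def sp (B C : Cl) : Cl := fun G _ =>
  ∀ K : Cl, Phi K → (∀ (X : Type) [Group X], B X → K X) → (∀ (X : Type) [Group X], C X → K X) → K G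

lemma phi_sp {B C : Cl} (hB : Phi B) (hC : Phi C) : Phi (sp B C) := by
  refine ⟨fun G _ h => h _ phi_fin hB.1 hC.1, ?_, ?_⟩
  · intro G H _ _ f hf h K hK h1 h2
    exact hK.2.1 G H f hf (h K hK h1 h2)
  · intro G _ N1 N2 _ _ hb x1 x2 K hK h1 h2
    exact hK.2.2 G N1 N2 hb (x1 K hK h1 h2) (x2 K hK h1 h2)

lemma phi_inf {B C : Cl} (hB : Phi B) (hC : Phi C) : Phi (fun G _ => B G ∧ C G) := by
  refine ⟨fun G _ h => hB.1 G h.1, ?_, ?_⟩
  · intro G H _ _ f hf h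
    exact ⟨hB.2.1 G H f hf h.1, hC.2.1 G H f hf h.2⟩
  · intro G _ N1 N2 _ _ hb x1 x2
    exact ⟨hB.2.2 G N1 N2 hb x1.1 x2.1, hC.2.2 G N1 N2 hb x1.2 x2.2⟩

instance : Lattice Fm where
  le B C := ∀ (G : Type) [Group G], B.mem G → C.mem G
  le_refl _ _ _ h := h
  le_trans _ _ _ h1 h2 G _ h := h2 G (h1 G h)
  le_antisymm B C h1 h2 := by
    ext1; funext G inst; exact propext ⟨h1 G, h2 G⟩
  sup B C := ⟨sp B.mem C.mem, phi_sp B.ok C.ok⟩
  le_sup_left _ _ G _ h _ _ h1 _ := h1 G h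
  le_sup_right _ _ G _ h _ _ _ h2 := h2 G h
  sup_le _ _ K h1 h2 _ _ h := h K.mem K.ok h1 h2
  inf B C := ⟨fun G _ => B.mem G ∧ C.mem G, phi_inf B.ok C.ok⟩
  inf_le_left _ _ _ _ h := h.1
  inf_le_right _ _ _ _ h := h.2
  le_inf _ _ _ h1 h2 G _ h := ⟨h1 G h, h2 G h⟩

lemma le_def {B C : Fm} : B ≤ C ↔ ∀ (G : Type) [Group G], B.mem G → C.mem G := Iff.rfl

lemma mem_inf {B C : Fm} {G : Type} [Group G] : (B ⊓ C).mem G ↔ B.mem G ∧ C.mem G := Iff.rfl

def W (B C : Cl) : Cl := fun G _ =>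
  ∃ (E B1 C1 : Type) (_ : Group E) (_ : Group B1) (_ : Group C1) (f1 : E →* B1) (f2 : E →* C1)
    (g : E →* G), Surjective f1 ∧ Surjective f2 ∧ Surjective g ∧ B B1 ∧ C C1 ∧
      f1.ker ⊓ f2.ker ≤ g.ker

lemma phi_W {B C : Cl} (hB : Phi B) (hC : Phi C) : Phi (W B C) := by
  refine ⟨?_, ?_, ?_⟩
  · rintro G _ ⟨E, B1, C1, _, _, _, f1, f2, g, s1, s2, sg, x1, x2, hk⟩
    exact phi_fin.qr f1 f2 g s1 s2 sg (hB.1 _ x1) (hC.1 _ x2) hk
  · rintro G H _ _ f hf ⟨E, B1, C1, _, _, _, f1, f2, g, s1, s2, sg, x1, x2, hk⟩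
    refine ⟨E, B1, C1, _, _, _, f1, f2, f.comp g, s1, s2, hf.comp sg, x1, x2, fun x hx => ?_⟩
    have : g x = 1 := hk hx
    simp [this]
  · rintro G _ N1 N2 _ _ hb ⟨E, B1, C1, _, _, _, f1, f2, g, s1, s2, sg, x1, x2, hk⟩
      ⟨E', B1', C1', _, _, _, f1', f2', g', s1', s2', sg', x1', x2', hk'⟩
    let S : Subgroup (E × E' × G) :=
      MonoidHom.eqLocus (g.comp (MonoidHom.fst _ _))
        ((QuotientGroup.mk' N1).comp ((MonoidHom.snd _ _).comp (MonoidHom.snd _ _))) ⊓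
      MonoidHom.eqLocus (g'.comp ((MonoidHom.fst _ _).comp (MonoidHom.snd _ _)))
        ((QuotientGroup.mk' N2).comp ((MonoidHom.snd _ _).comp (MonoidHom.snd _ _)))
    have hS : ∀ x : E × E' × G, x ∈ S ↔ g x.1 = (x.2.2 : G ⧸ N1) ∧ g' x.2.1 = (x.2.2 : G ⧸ N2) :=
      fun x => Iff.rfl
    let p1 : S →* E := (MonoidHom.fst _ _).comp S.subtype
    let p2 : S →* E' := ((MonoidHom.fst _ _).comp (MonoidHom.snd _ _)).comp S.subtype
    let p3 : S →* G := ((MonoidHom.snd _ _).comp (MonoidHom.snd _ _)).comp S.subtype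
    have q1 : Surjective p1 := by
      intro e
      obtain ⟨x, hx⟩ := QuotientGroup.mk_surjective (g e)
      obtain ⟨e', he'⟩ := sg' (x : G ⧸ N2)
      exact ⟨⟨(e, e', x), (hS _).2 ⟨hx.symm, he'⟩⟩, rfl⟩
    have q2 : Surjective p2 := by
      intro e'
      obtain ⟨x, hx⟩ := QuotientGroup.mk_surjective (g' e')
      obtain ⟨e, he⟩ := sg (x : G ⧸ N1)
      exact ⟨⟨(e, e', x), (hS _).2 ⟨he, hx.symm⟩⟩, rfl⟩
    have q3 : Surjective p3 := by
      intro x
      obtain ⟨e', he'⟩ := sg' (x : G ⧸ N2)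
      obtain ⟨e, he⟩ := sg (x : G ⧸ N1)
      exact ⟨⟨(e, e', x), (hS _).2 ⟨he, he'⟩⟩, rfl⟩
    let F1 := (f1.comp p1).prod (f1'.comp p2)
    let F2 := (f2.comp p1).prod (f2'.comp p2)
    refine ⟨S, F1.range, F2.range, _, _, _, F1.rangeRestrict, F2.rangeRestrict, p3,
      F1.rangeRestrict_surjective, F2.rangeRestrict_surjective, q3, ?_, ?_, ?_⟩
    · refine hB.qr (f1.comp p1) (f1'.comp p2) F1.rangeRestrict (s1.comp q1) (s1'.comp q2)
        F1.rangeRestrict_surjective x1 x1' ?_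
      rw [MonoidHom.ker_rangeRestrict, MonoidHom.ker_prod]
    · refine hC.qr (f2.comp p1) (f2'.comp p2) F2.rangeRestrict (s2.comp q1) (s2'.comp q2)
        F2.rangeRestrict_surjective x2 x2' ?_
      rw [MonoidHom.ker_rangeRestrict, MonoidHom.ker_prod]
    · rw [MonoidHom.ker_rangeRestrict, MonoidHom.ker_prod, MonoidHom.ker_rangeRestrict,
        MonoidHom.ker_prod]
      rintro ⟨⟨e, e', x⟩, hx⟩ ⟨⟨a1, a2⟩, a3, a4⟩
      have b1 : g e = 1 := hk ⟨a1, a3⟩
      have b2 : g' e' = 1 := hk' ⟨a2, a4⟩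
      obtain ⟨c1, c2⟩ := (hS _).1 hx
      have : x ∈ N1 ⊓ N2 := ⟨(QuotientGroup.eq_one_iff _).1 (c1.symm.trans b1),
        (QuotientGroup.eq_one_iff _).1 (c2.symm.trans b2)⟩
      rw [hb] at this
      exact this

lemma sup_cases (B C : Fm) {G : Type} [Group G] (h : (B ⊔ C).mem G) :
    B.mem G ∨ C.mem G ∨ W B.mem C.mem G := by
  by_cases hB : B.mem PUnit
  · by_cases hC : C.mem PUnit
    · right; right
      refine h _ (phi_W B.ok C.ok) ?_ ?_
      · intro X _ hX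
        exact ⟨X, X, PUnit, _, _, _, MonoidHom.id X, 1, MonoidHom.id X, surjective_id,
          fun y => ⟨1, rfl⟩, surjective_id, hX, hC, inf_le_left⟩
      · intro X _ hX
        exact ⟨X, PUnit, X, _, _, _, 1, MonoidHom.id X, MonoidHom.id X,
          fun y => ⟨1, rfl⟩, surjective_id, surjective_id, hB, hX, inf_le_right⟩
    · left
      exact h _ B.ok (fun _ _ h => h) (fun _ _ h => (hC (C.ok.triv h)).elim)
  · right; left
    exact h _ C.ok (fun _ _ h => (hB (B.ok.triv h)).elim) (fun _ _ h => h)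

instance : IsModularLattice Fm := ⟨by
  intro X Z Y hXY G _ ⟨h1, h2⟩
  rcases sup_cases X Z h1 with h | h | ⟨E, B1, C1, _, _, _, f1, f2, g, s1, s2, sg, x1, x2, hk⟩
  · exact (le_sup_left : X ≤ X ⊔ Z ⊓ Y) G h
  · exact (le_sup_right : Z ⊓ Y ≤ X ⊔ Z ⊓ Y) G ⟨h, h2⟩
  · set L : Subgroup E := (g.ker ⊓ f1.ker) ⊔ f2.ker with hL
    have : L.Normal := by rw [hL]; infer_instance
    have a1 : Z.mem (E ⧸ L) := Z.ok.qr f2 f2 (QuotientGroup.mk' L) s2 s2
      (QuotientGroup.mk'_surjective L) x2 x2 (by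
        rw [QuotientGroup.ker_mk', inf_idem]; exact le_sup_right)
    have a2 : Y.mem (E ⧸ L) := Y.ok.qr g f1 (QuotientGroup.mk' L) sg s1
      (QuotientGroup.mk'_surjective L) h2 (hXY _ x1) (by
        rw [QuotientGroup.ker_mk']; exact le_sup_left)
    refine (X ⊔ Z ⊓ Y).ok.qr f1 (QuotientGroup.mk' L) g s1 (QuotientGroup.mk'_surjective L) sg
      ((le_sup_left : X ≤ X ⊔ Z ⊓ Y) _ x1) ((le_sup_right : Z ⊓ Y ≤ X ⊔ Z ⊓ Y) _ ⟨a1, a2⟩) ?_
    rw [QuotientGroup.ker_mk']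
    rintro x ⟨hx1, hx2⟩
    have hx3 : x ∈ ((g.ker ⊓ f1.ker : Subgroup E) : Set E) * (f2.ker : Set E) := by
      rw [← Subgroup.mul_normal]; exact hx2
    obtain ⟨a, ha, b, hb, rfl⟩ := hx3
    have : b ∈ f1.ker := by
      have := f1.ker.mul_mem (f1.ker.inv_mem ha.2) hx1
      simpa using this
    exact g.ker.mul_mem ha.1 (hk ⟨this, hb⟩)⟩

lemma height {L : Type*} [Lattice L] [IsModularLattice L] (t : ℕ) (c : ℕ → L)
    (hc : ∀ i < t, c i ⋖ c (i + 1)) (h0 : ∀ x, c 0 ≤ x) :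
    ∃ h : L → ℕ, (∀ x, h x ≤ t) ∧ ∀ x y, x < y → y ≤ c t → h x < h y := by
  classical
  refine ⟨fun x => ((Finset.range t).filter
    (fun i => c (i + 1) ≤ (x ⊓ c (i + 1)) ⊔ c i)).card, fun x => ?_, fun x y hxy hy => ?_⟩
  · exact (Finset.card_filter_le _ _).trans (by simp)
  · apply Finset.card_lt_card
    have hsub : (Finset.range t).filter (fun i => c (i + 1) ≤ (x ⊓ c (i + 1)) ⊔ c i) ⊆
        (Finset.range t).filter (fun i => c (i + 1) ≤ (y ⊓ c (i + 1)) ⊔ c i) := by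
      intro i hi
      rw [Finset.mem_filter] at hi ⊢
      exact ⟨hi.1, hi.2.trans (sup_le_sup_right (inf_le_inf_right _ hxy.le) _)⟩
    refine ⟨hsub, fun hsup => ?_⟩
    have key : ∀ i ≤ t, x ⊓ c i = y ⊓ c i := by
      intro i
      induction i with
      | zero => intro _; rw [inf_eq_right.2 (h0 x), inf_eq_right.2 (h0 y)]
      | succ i ih =>
        intro hi
        have hcv := hc i (by omega)
        have ih' := ih (by omega)
        refine eq_of_le_of_inf_le_of_le_sup (z := c i) (inf_le_inf_right _ hxy.le) ?_ ?_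
        · rw [inf_assoc, inf_eq_right.2 hcv.le, ← ih']
          exact inf_le_inf_left _ hcv.le
        · rcases hcv.eq_or_eq (c := (y ⊓ c (i + 1)) ⊔ c i) le_sup_right
            (sup_le inf_le_right hcv.le) with h | h
          · exact le_sup_left.trans (h.le.trans le_sup_right)
          · have := hsup (Finset.mem_filter.2 ⟨Finset.mem_range.2 (by omega : i < t), h.ge⟩)
            exact inf_le_right.trans (Finset.mem_filter.1 this).2
    have := key t le_rfl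
    rw [inf_eq_left.2 hy, inf_eq_left.2 (hxy.le.trans hy)] at this
    exact hxy.ne this

lemma exists_min (P K : Fm) (h : ¬ P ≤ K) : ∃ (G : Type) (_ : Group G), P.mem G ∧ ¬ K.mem G ∧
    ∀ (N : Subgroup G) [N.Normal], N ≠ ⊥ → K.mem (G ⧸ N) := by
  by_contra hcon
  apply h
  have : ∀ n : ℕ, ∀ (G : Type) [Group G], Nat.card G = n → P.mem G → K.mem G := by
    intro n
    induction n using Nat.strong_induction_on with
    | _ n ih =>
      intro G _ hn hP
      by_contra hK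
      apply hcon
      refine ⟨G, _, hP, hK, fun N _ hN => ?_⟩
      have := P.ok.1 G hP
      refine ih _ ?_ _ rfl (P.ok.2.1 G _ (QuotientGroup.mk' N) (QuotientGroup.mk'_surjective N) hP)
      rw [← hn, Subgroup.card_eq_card_quotient_mul_card_subgroup N]
      have h1 : 1 < Nat.card N := (Subgroup.one_lt_card_iff_ne_bot N).2 hN
      have h2 : 0 < Nat.card (G ⧸ N) := Nat.card_pos
      nlinarith
  intro G _ hP
  exact this _ G rfl hP

lemma monolith (K : Fm) (hK : K.mem PUnit) {G : Type} [Group G] [Finite G] (h1 : ¬ K.mem G)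
    (h2 : ∀ (N : Subgroup G) [N.Normal], N ≠ ⊥ → K.mem (G ⧸ N)) :
    ∃ M : Subgroup G, M.Normal ∧ M ≠ ⊥ ∧ ∀ N : Subgroup G, N.Normal → N ≠ ⊥ → M ≤ N := by
  have hne : (⊤ : Subgroup G) ≠ ⊥ := by
    intro h
    have : Subsingleton G := Subgroup.subsingleton_iff.1 (subsingleton_of_bot_eq_top h.symm)
    exact h1 (K.ok.triv hK)
  obtain ⟨M, hM, hmin⟩ := (wellFounded_lt (α := Subgroup G)).has_min
    {N : Subgroup G | N.Normal ∧ N ≠ ⊥} ⟨⊤, inferInstance, hne⟩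
  refine ⟨M, hM.1, hM.2, fun N hN hNb => ?_⟩
  have := hM.1
  have h3 : M ⊓ N ≠ ⊥ := fun h => h1 (K.ok.2.2 G M N h (h2 M hM.2) (h2 N hNb))
  by_contra hle
  exact hmin (M ⊓ N) ⟨inferInstance, h3⟩ (lt_of_le_of_ne inf_le_left fun h => hle (inf_eq_left.1 h))

end Pool.Agent.H.MP_4f47f1_al
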