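import Pool.Agent.H.MP_4f47f1_al.A

set_option autoImplicit false

namespace Pool.Agent.H.MP_4f47f1_al

open Function Pointwise

def Gt {G : Type} [Group G] (M : Subgroup G) [hM : M.Normal] : Subgroup (G × G) where
  carrier := {x | x.1 * x.2⁻¹ ∈ M}
  one_mem' := by simp
  mul_mem' := by
    rintro ⟨a, b⟩ ⟨c, d⟩ h1 h2
    have : a * c * (b * d)⁻¹ = a * (c * d⁻¹) * a⁻¹ * (a * b⁻¹) := by group
    show a * c * (b * d)⁻¹ ∈ M
    rw [this]
    exact M.mul_mem (hM.conj_mem _ h2 _) h1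
  inv_mem' := by
    rintro ⟨a, b⟩ h
    have : a⁻¹ * b⁻¹⁻¹ = b⁻¹ * (a * b⁻¹)⁻¹ * b⁻¹⁻¹ := by group
    show a⁻¹ * b⁻¹⁻¹ ∈ M
    rw [this]
    exact hM.conj_mem _ (M.inv_mem h) _

def Rt {G : Type} [Group G] (M : Subgroup G) [M.Normal] : Subgroup (Gt M) where
  carrier := {x | x.1.1 = x.1.2 ∧ ∀ m ∈ M, m * x.1.2 = x.1.2 * m}
  one_mem' := by simp
  mul_mem' := by
    rintro ⟨⟨a, b⟩, h⟩ ⟨⟨c, d⟩, h'⟩ ⟨h1, h2⟩ ⟨h3, h4⟩
    simp only at h1 h2 h3 h4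
    refine ⟨by simp [h1, h3], fun m hm => ?_⟩
    show m * (b * d) = b * d * m
    rw [← mul_assoc, h2 m hm, mul_assoc, h4 m hm, mul_assoc]
  inv_mem' := by
    rintro ⟨⟨a, b⟩, h⟩ ⟨h1, h2⟩
    simp only at h1 h2
    refine ⟨by simp [h1], fun m hm => ?_⟩
    show m * b⁻¹ = b⁻¹ * m
    have := h2 m hm
    calc m * b⁻¹ = b⁻¹ * (b * m) * b⁻¹ := by group
      _ = b⁻¹ * (m * b) * b⁻¹ := by rw [this]
      _ = b⁻¹ * m := by group

instance Rt_normal {G : Type} [Group G] (M : Subgroup G) [hM : M.Normal] : (Rt M).Normal := ⟨by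
  rintro ⟨⟨a, b⟩, h⟩ ⟨h1, h2⟩ ⟨⟨x, y⟩, hxy⟩
  simp only at h1 h2
  subst h1
  have hxy' : x * y⁻¹ ∈ M := hxy
  have hc : ∀ m ∈ M, m * (y * a * y⁻¹) = y * a * y⁻¹ * m := by
    intro m hm
    have := h2 (y⁻¹ * m * y⁻¹⁻¹) (hM.conj_mem _ hm _)
    calc m * (y * a * y⁻¹) = y * (y⁻¹ * m * y⁻¹⁻¹ * a) * y⁻¹ := by group
      _ = y * (a * (y⁻¹ * m * y⁻¹⁻¹)) * y⁻¹ := by rw [this]
      _ = _ := by group
  refine ⟨?_, hc⟩
  show x * a * x⁻¹ = y * a * y⁻¹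
  have := hc _ hxy'
  calc x * a * x⁻¹ = (x * y⁻¹ * (y * a * y⁻¹)) * (x * y⁻¹)⁻¹ := by group
    _ = (y * a * y⁻¹ * (x * y⁻¹)) * (x * y⁻¹)⁻¹ := by rw [this]
    _ = _ := by group⟩

abbrev XG {G : Type} [Group G] (M : Subgroup G) [M.Normal] := Gt M ⧸ Rt M

lemma bk {Y : Cl} (hY : Phi Y) {G E C1 : Type} [Group G] [Group E] [Group C1] (M : Subgroup G)
    [M.Normal] (π : E →* G) (ρ : E →* C1) (sπ : Surjective π) (sρ : Surjective ρ) (hC : Y C1)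
    (U : Subgroup E) [hU : U.Normal] (h1 : ∀ u ∈ U, π u ∈ M) (h2 : ∀ m ∈ M, ∃ u ∈ U, π u = m)
    (h3 : ∀ u ∈ U, ρ u = 1 → π u = 1) : Y (XG M) := by
  let g0 : Gt U →* Gt M := (((π.prodMap π).comp (Gt U).subtype)).codRestrict (Gt M) (by
    rintro ⟨⟨a, b⟩, h⟩
    have := h1 _ h
    show π a * (π b)⁻¹ ∈ M
    simpa using this)
  have sg0 : Surjective g0 := by
    rintro ⟨⟨x, y⟩, h⟩
    obtain ⟨u, hu, hu'⟩ := h2 _ h
    obtain ⟨b, rfl⟩ := sπ y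
    refine ⟨⟨(u * b, b), show u * b * b⁻¹ ∈ U by simpa using hu⟩, ?_⟩
    ext
    · show π (u * b) = x
      rw [map_mul, hu']; simp
    · rfl
  refine hY.qr (ρ.comp ((MonoidHom.fst _ _).comp (Gt U).subtype))
    (ρ.comp ((MonoidHom.snd _ _).comp (Gt U).subtype)) ((QuotientGroup.mk' (Rt M)).comp g0)
    ?_ ?_ ((QuotientGroup.mk'_surjective _).comp sg0) hC hC ?_
  · intro c
    obtain ⟨b, rfl⟩ := sρ c
    exact ⟨⟨(b, b), show b * b⁻¹ ∈ U by simp⟩, rfl⟩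
  · intro c
    obtain ⟨b, rfl⟩ := sρ c
    exact ⟨⟨(b, b), show b * b⁻¹ ∈ U by simp⟩, rfl⟩
  · rintro ⟨⟨a, b⟩, h⟩ ⟨ha, hb⟩
    have ha' : ρ a = 1 := ha
    have hb' : ρ b = 1 := hb
    show (QuotientGroup.mk (g0 ⟨(a, b), h⟩) : XG M) = 1
    rw [QuotientGroup.eq_one_iff]
    refine ⟨?_, fun m hm => ?_⟩
    · show π a = π b
      have := h3 _ h (by simp [ha', hb'])
      rw [map_mul, map_inv] at this
      exact mul_inv_eq_one.1 this
    · show m * π b = π b * m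
      obtain ⟨u, hu, rfl⟩ := h2 m hm
      have := h3 (u * (b * u⁻¹ * b⁻¹)) (U.mul_mem hu (hU.conj_mem _ (U.inv_mem hu) _))
        (by simp [hb'])
      simp only [map_mul, map_inv] at this
      calc π u * π b = (π u * (π b * (π u)⁻¹ * (π b)⁻¹)) * (π b * π u) := by group
        _ = π b * π u := by rw [this, one_mul]

lemma bk_self {Y : Cl} (hY : Phi Y) {G : Type} [Group G] (M : Subgroup G) [M.Normal] (h : Y G) :
    Y (XG M) :=
  bk hY M (MonoidHom.id G) (MonoidHom.id G) surjective_id surjective_id h M (fun _ h => h)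
    (fun m hm => ⟨m, hm, rfl⟩) (fun _ _ h => h)

lemma bk_W {B C : Cl} (hB : Phi B) (hC : Phi C) {G E B1 C1 : Type} [Group G] [Group E] [Group B1]
    [Group C1] (f1 : E →* B1) (f2 : E →* C1) (g : E →* G) (s1 : Surjective f1)
    (s2 : Surjective f2) (sg : Surjective g) (x1 : B B1) (x2 : C C1)
    (hk : f1.ker ⊓ f2.ker ≤ g.ker) (M : Subgroup G) [M.Normal]
    (hM : ∀ N : Subgroup G, N.Normal → N ≠ ⊥ → M ≤ N) (hG : ¬ B G) : C (XG M) := by
  have h1 : M ≤ f1.ker.map g := by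
    refine hM _ (Subgroup.Normal.map inferInstance g sg) fun h => hG ?_
    refine hB.qr f1 f1 g s1 s1 sg x1 x1 ?_
    rw [inf_idem]
    exact (Subgroup.map_eq_bot_iff _).1 h
  refine bk hC M g f2 sg s2 x2 (M.comap g ⊓ f1.ker) (fun u hu => hu.1) ?_ ?_
  · intro m hm
    obtain ⟨u, hu, rfl⟩ := h1 hm
    exact ⟨u, ⟨hm, hu⟩, rfl⟩
  · intro u hu h
    exact hk ⟨hu.2, h⟩

lemma bk_sup (B C : Fm) {G : Type} [Group G] (h : (B ⊔ C).mem G) (hB : ¬ B.mem G)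
    (hC : ¬ C.mem G) (M : Subgroup G) [M.Normal]
    (hM : ∀ N : Subgroup G, N.Normal → N ≠ ⊥ → M ≤ N) : B.mem (XG M) ∧ C.mem (XG M) := by
  rcases sup_cases B C h with h | h | ⟨E, B1, C1, _, _, _, f1, f2, g, s1, s2, sg, x1, x2, hk⟩
  · exact (hB h).elim
  · exact (hC h).elim
  · exact ⟨bk_W C.ok B.ok f2 f1 g s2 s1 sg x2 x1 (by rwa [inf_comm]) M hM hC,
      bk_W B.ok C.ok f1 f2 g s1 s2 sg x1 x2 hk M hM hB⟩

def el {G : Type} [Group G] (M : Subgroup G) [M.Normal] (m : G) (hm : m ∈ M) : Gt M :=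
  ⟨(m, 1), show m * 1⁻¹ ∈ M by simpa using hm⟩

lemma XG_nontrivial {G : Type} [Group G] (M : Subgroup G) [M.Normal] (h : M ≠ ⊥) :
    Nontrivial (XG M) := by
  obtain ⟨⟨m, hm⟩, h1⟩ := Subgroup.ne_bot_iff_exists_ne_one.1 h
  refine ⟨QuotientGroup.mk (el M m hm), 1, fun h2 => h1 ?_⟩
  rw [QuotientGroup.eq_one_iff] at h2
  exact Subtype.ext h2.1

lemma XG_comm {G : Type} [Group G] (M : Subgroup G) [M.Normal]
    (h : ∀ x y : XG M, x * y = y * x) : ∀ m ∈ M, ∀ g : G, m * g = g * m := by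
  intro m hm g
  let d : Gt M := ⟨(g, g), show g * g⁻¹ ∈ M by simp⟩
  have h1 := h (QuotientGroup.mk (el M m hm)) (QuotientGroup.mk d)
  rw [← QuotientGroup.mk_mul, ← QuotientGroup.mk_mul, QuotientGroup.eq] at h1
  have h2 : (m * g)⁻¹ * (g * m) = (1 * g)⁻¹ * (g * 1) := h1.1
  simp only [one_mul, mul_one, inv_mul_cancel] at h2
  exact inv_mul_eq_one.1 h2

lemma XG_pow {G : Type} [Group G] (M : Subgroup G) [M.Normal] (p : ℕ)
    (h : ∀ x : XG M, x ^ p = 1) : ∀ m ∈ M, m ^ p = 1 := by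
  intro m hm
  have h1 := h (QuotientGroup.mk (el M m hm))
  rw [← QuotientGroup.mk_pow, QuotientGroup.eq_one_iff] at h1
  have h2 : m ^ p = 1 ^ p := h1.1
  simpa using h2

lemma sub_step {Y : Cl} (hY : Phi Y) {G : Type} [Group G] (H N : Subgroup G) [hN : N.Normal]
    (hc : ∀ a ∈ N, ∀ b ∈ N, a * b = b * a) (h : Y ↥(H ⊔ N)) : Y H := by
  let S : Subgroup (G × G × G × G) :=
    { carrier := {x | x.1 ∈ H ∧ x.1⁻¹ * x.2.1 ∈ N ∧ x.1⁻¹ * x.2.2.1 ∈ N ∧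
        x.2.2.2 = x.2.1 * x.1⁻¹ * x.2.2.1}
      one_mem' := by simp
      mul_mem' := by
        rintro ⟨a, b, c, d⟩ ⟨a', b', c', d'⟩ ⟨h1, h2, h3, h4⟩ ⟨h1', h2', h3', h4'⟩
        simp only at h1 h2 h3 h4 h1' h2' h3' h4'
        refine ⟨H.mul_mem h1 h1', ?_, ?_, ?_⟩
        · show (a * a')⁻¹ * (b * b') ∈ N
          have : (a * a')⁻¹ * (b * b') = a'⁻¹ * (a⁻¹ * b) * a'⁻¹⁻¹ * (a'⁻¹ * b') := by group
          rw [this]; exact N.mul_mem (hN.conj_mem _ h2 _) h2'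
        · show (a * a')⁻¹ * (c * c') ∈ N
          have : (a * a')⁻¹ * (c * c') = a'⁻¹ * (a⁻¹ * c) * a'⁻¹⁻¹ * (a'⁻¹ * c') := by group
          rw [this]; exact N.mul_mem (hN.conj_mem _ h3 _) h3'
        · show d * d' = b * b' * (a * a')⁻¹ * (c * c')
          have e := hc _ h3 _ (hN.conj_mem _ h2' a')
          calc d * d' = b * ((a⁻¹ * c) * (a' * (a'⁻¹ * b') * a'⁻¹)) * c' := by rw [h4, h4']; group
            _ = b * ((a' * (a'⁻¹ * b') * a'⁻¹) * (a⁻¹ * c)) * c' := by rw [e]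
            _ = _ := by group
      inv_mem' := by
        rintro ⟨a, b, c, d⟩ ⟨h1, h2, h3, h4⟩
        simp only at h1 h2 h3 h4
        refine ⟨H.inv_mem h1, ?_, ?_, ?_⟩
        · show a⁻¹⁻¹ * b⁻¹ ∈ N
          have : a⁻¹⁻¹ * b⁻¹ = a * (a⁻¹ * b)⁻¹ * a⁻¹ := by group
          rw [this]; exact hN.conj_mem _ (N.inv_mem h2) _
        · show a⁻¹⁻¹ * c⁻¹ ∈ N
          have : a⁻¹⁻¹ * c⁻¹ = a * (a⁻¹ * c)⁻¹ * a⁻¹ := by group
          rw [this]; exact hN.conj_mem _ (N.inv_mem h3) _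
        · show d⁻¹ = b⁻¹ * a⁻¹⁻¹ * c⁻¹
          have e := hc _ h2 _ h3
          calc d⁻¹ = (a * ((a⁻¹ * b) * (a⁻¹ * c)))⁻¹ := by rw [h4]; group
            _ = (a * ((a⁻¹ * c) * (a⁻¹ * b)))⁻¹ := by rw [e]
            _ = _ := by group }
  have hm : ∀ a ∈ H, ∀ b, a⁻¹ * b ∈ N → b ∈ H ⊔ N := by
    intro a ha b hb
    have : b = a * (a⁻¹ * b) := by group
    rw [this]; exact Subgroup.mul_mem_sup ha hb
  have hd : ∀ x ∈ H ⊔ N, ∃ a ∈ H, ∃ n ∈ N, x = a * n := by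
    intro x hx
    have : x ∈ (H : Set G) * (N : Set G) := by rw [← Subgroup.mul_normal]; exact hx
    obtain ⟨a, ha, n, hn, rfl⟩ := this
    exact ⟨a, ha, n, hn, rfl⟩
  let p0 : S →* H := ((MonoidHom.fst _ _).comp S.subtype).codRestrict H (fun x => x.2.1)
  let p1 : S →* ↥(H ⊔ N) := (((MonoidHom.fst _ _).comp (MonoidHom.snd _ _)).comp
    S.subtype).codRestrict _ (fun x => hm _ x.2.1 _ x.2.2.1)
  let p2 : S →* ↥(H ⊔ N) := ((((MonoidHom.fst _ _).comp (MonoidHom.snd _ _)).comp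
    (MonoidHom.snd _ _)).comp S.subtype).codRestrict _ (fun x => hm _ x.2.1 _ x.2.2.2.1)
  let p3 : S →* ↥(H ⊔ N) := ((((MonoidHom.snd _ _).comp (MonoidHom.snd _ _)).comp
    (MonoidHom.snd _ _)).comp S.subtype).codRestrict _ (fun x => by
      obtain ⟨⟨a, b, c, d⟩, h1, h2, h3, h4⟩ := x
      simp only at h1 h2 h3 h4
      show d ∈ H ⊔ N
      rw [h4, mul_assoc]
      exact (H ⊔ N).mul_mem (hm _ h1 _ h2) (Subgroup.mem_sup_right h3))
  have s0 : Surjective p0 := by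
    rintro ⟨a, ha⟩
    exact ⟨⟨(a, a, a, a), ha, by simp, by simp, by simp⟩, rfl⟩
  have s1 : Surjective p1 := by
    rintro ⟨x, hx⟩
    obtain ⟨a, ha, n, hn, rfl⟩ := hd x hx
    exact ⟨⟨(a, a * n, a, a * n), ha, by simpa using hn, by simp, by simp⟩, rfl⟩
  have s2 : Surjective p2 := by
    rintro ⟨x, hx⟩
    obtain ⟨a, ha, n, hn, rfl⟩ := hd x hx
    exact ⟨⟨(a, a, a * n, a * n), ha, by simp, by simpa using hn, by simp⟩, rfl⟩
  have s3 : Surjective p3 := by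
    rintro ⟨x, hx⟩
    obtain ⟨a, ha, n, hn, rfl⟩ := hd x hx
    exact ⟨⟨(a, a, a * n, a * n), ha, by simp, by simpa using hn, by simp⟩, rfl⟩
  have y1 : Y (S ⧸ (p1.ker ⊓ p2.ker)) := hY.qr p1 p2 (QuotientGroup.mk' _) s1 s2
    (QuotientGroup.mk'_surjective _) h h (by rw [QuotientGroup.ker_mk'])
  refine hY.qr (QuotientGroup.mk' _) p3 p0 (QuotientGroup.mk'_surjective _) s3 s0 y1 h ?_
  rw [QuotientGroup.ker_mk']
  rintro ⟨⟨a, b, c, d⟩, h1, h2, h3, h4⟩ ⟨⟨e1, e2⟩, e3⟩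
  have f1 : b = 1 := congrArg Subtype.val e1
  have f2 : c = 1 := congrArg Subtype.val e2
  have f3 : d = 1 := congrArg Subtype.val e3
  simp only at h4
  subst f1 f2 f3
  apply Subtype.ext
  show a = 1
  simpa using h4.symm

lemma sub_all {Y : Cl} (hY : Phi Y) {G : Type} [Group G] (hG : Y G)
    (h2 : ∀ a b : G, a * b * a⁻¹ * b⁻¹ ∈ Subgroup.center G) (H : Subgroup G) : Y H := by
  have := hY.1 G hG
  induction H using WellFoundedGT.induction with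
  | ind H ih =>
    by_cases hH : H = ⊤
    · subst hH; exact hY.iso Subgroup.topEquiv.symm hG
    obtain ⟨g, hg⟩ : ∃ g, g ∉ H := by
      by_contra h; push Not at h; exact hH (eq_top_iff.2 fun x _ => h x)
    let N : Subgroup G := Subgroup.center G ⊔ Subgroup.zpowers g
    have hN : N.Normal := ⟨fun n hn x => by
      have : x * n * x⁻¹ = (x * n * x⁻¹ * n⁻¹) * n := by group
      rw [this]; exact N.mul_mem (Subgroup.mem_sup_left (h2 _ _)) hn⟩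
    have hd : ∀ x ∈ N, ∃ z ∈ Subgroup.center G, ∃ k : ℤ, x = z * g ^ k := by
      intro x hx
      have : x ∈ (Subgroup.center G : Set G) * (Subgroup.zpowers g : Set G) := by
        rw [← Subgroup.normal_mul]; exact hx
      obtain ⟨a, ha, n, ⟨k, rfl⟩, rfl⟩ := this
      exact ⟨a, ha, k, rfl⟩
    refine sub_step hY H N ?_ (ih _ (lt_of_le_of_ne le_sup_left fun h => hg ?_))
    · intro a ha b hb
      obtain ⟨z, hz, k, rfl⟩ := hd a ha
      obtain ⟨z', hz', k', rfl⟩ := hd b hb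
      rw [Subgroup.mem_center_iff] at hz hz'
      calc z * g ^ k * (z' * g ^ k') = z * (g ^ k * z') * g ^ k' := by group
        _ = z * (z' * g ^ k) * g ^ k' := by rw [hz']
        _ = (z * z') * (g ^ k' * g ^ k) := by group
        _ = (z' * z) * (g ^ k' * g ^ k) := by rw [hz z']
        _ = z' * (z * g ^ k') * g ^ k := by group
        _ = z' * (g ^ k' * z) * g ^ k := by rw [hz]
        _ = _ := by group
    · rw [h]
      exact Subgroup.mem_sup_right (Subgroup.mem_sup_right (Subgroup.mem_zpowers g))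

end Pool.Agent.H.MP_4f47f1_al
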