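import Pool.Agent.H.MP_4f47f1_al.B

set_option autoImplicit false

namespace Pool.Agent.H.MP_4f47f1_al

open Function Pointwise

@[ext] structure HZ where
  a : ℤ
  b : ℤ
  c : ℤ

instance : Mul HZ := ⟨fun x y => ⟨x.a + y.a, x.b + y.b, x.c + y.c + y.a * x.b⟩⟩
instance : One HZ := ⟨⟨0, 0, 0⟩⟩
instance : Inv HZ := ⟨fun x => ⟨-x.a, -x.b, -x.c + x.a * x.b⟩⟩

@[simp] lemma mul_a (x y : HZ) : (x * y).a = x.a + y.a := rfl
@[simp] lemma mul_b (x y : HZ) : (x * y).b = x.b + y.b := rfl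
@[simp] lemma mul_c (x y : HZ) : (x * y).c = x.c + y.c + y.a * x.b := rfl
@[simp] lemma one_a : (1 : HZ).a = 0 := rfl
@[simp] lemma one_b : (1 : HZ).b = 0 := rfl
@[simp] lemma one_c : (1 : HZ).c = 0 := rfl
@[simp] lemma inv_a (x : HZ) : (x⁻¹).a = -x.a := rfl
@[simp] lemma inv_b (x : HZ) : (x⁻¹).b = -x.b := rfl
@[simp] lemma inv_c (x : HZ) : (x⁻¹).c = -x.c + x.a * x.b := rfl

instance : Group HZ := Group.ofLeftAxioms
  (fun x y z => by ext <;> simp <;> ring)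
  (fun x => by ext <;> simp)
  (fun x => by ext <;> simp)

def RR (p : ℕ) : Subgroup HZ where
  carrier := {x | (p : ℤ) ∣ x.a ∧ (p : ℤ) ∣ x.b ∧ (p : ℤ) ∣ x.c}
  one_mem' := by simp
  mul_mem' := by
    rintro x y ⟨h1, h2, h3⟩ ⟨h4, h5, h6⟩
    exact ⟨dvd_add h1 h4, dvd_add h2 h5, dvd_add (dvd_add h3 h6) (Dvd.dvd.mul_right h4 _)⟩
  inv_mem' := by
    rintro x ⟨h1, h2, h3⟩
    exact ⟨(dvd_neg).2 h1, (dvd_neg).2 h2, dvd_add ((dvd_neg).2 h3) (Dvd.dvd.mul_right h1 _)⟩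

instance (p : ℕ) : (RR p).Normal := ⟨by
  rintro x ⟨⟨u, h1⟩, ⟨v, h2⟩, ⟨w, h3⟩⟩ g
  refine ⟨⟨u, ?_⟩, ⟨v, ?_⟩, ⟨w + u * g.b - g.a * v, ?_⟩⟩ <;> simp [h1, h2, h3] <;> ring⟩

lemma heis_comm {G : Type} [Group G] (x y z : G) (hz : ∀ g, g * z = z * g)
    (h : y * x = x * y * z) (a b : ℤ) : y ^ b * x ^ a = x ^ a * y ^ b * z ^ (a * b) := by
  have hz' : ∀ g (k : ℤ), g * z ^ k = z ^ k * g := fun g k => (Commute.zpow_right (hz g) k).eq
  have h1 : ∀ a : ℤ, y * x ^ a = x ^ a * (y * z ^ a) := by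
    intro a
    induction a using Int.induction_on with
    | zero => simp
    | succ i ih =>
      calc y * x ^ ((i : ℤ) + 1) = (y * x ^ (i : ℤ)) * x := by group
        _ = x ^ (i : ℤ) * y * (z ^ (i : ℤ) * x) := by rw [ih]; group
        _ = x ^ (i : ℤ) * (y * x) * z ^ (i : ℤ) := by rw [← hz']; group
        _ = _ := by rw [h]; group
    | pred i ih =>
      have h' : y * x⁻¹ = x⁻¹ * y * z⁻¹ := by
        calc y * x⁻¹ = x⁻¹ * (x * y * z) * (z⁻¹ * x⁻¹) := by group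
          _ = x⁻¹ * (y * x) * (x * z)⁻¹ := by rw [h]; group
          _ = x⁻¹ * (y * x) * (z * x)⁻¹ := by rw [hz]
          _ = _ := by group
      calc y * x ^ (-(i : ℤ) - 1) = (y * x ^ (-(i : ℤ))) * x⁻¹ := by group
        _ = x ^ (-(i : ℤ)) * y * (z ^ (-(i : ℤ)) * x⁻¹) := by rw [ih]; group
        _ = x ^ (-(i : ℤ)) * (y * x⁻¹) * z ^ (-(i : ℤ)) := by rw [← hz']; group
        _ = _ := by rw [h']; group
  have h2 : y = x ^ a * (y * z ^ a) * (x ^ a)⁻¹ := by rw [← h1]; group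
  have h3 : y ^ b = x ^ a * (y * z ^ a) ^ b * (x ^ a)⁻¹ := by
    conv_lhs => rw [h2]
    exact conj_zpow
  have h4 : (y * z ^ a) ^ b = y ^ b * z ^ (a * b) := by
    rw [Commute.mul_zpow (hz' y a), ← zpow_mul]
  rw [h4] at h3
  calc y ^ b * x ^ a = (x ^ a * (y ^ b * z ^ (a * b)) * (x ^ a)⁻¹) * x ^ a := by rw [← h3]
    _ = _ := by group

def hphi {G : Type} [Group G] (x y z : G) (hz : ∀ g, g * z = z * g)
    (h : y * x = x * y * z) : HZ →* G := MonoidHom.mk' (fun u => x ^ u.a * y ^ u.b * z ^ u.c) (by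
  intro u v
  have hz' : ∀ g (k : ℤ), g * z ^ k = z ^ k * g := fun g k => (Commute.zpow_right (hz g) k).eq
  simp only [mul_a, mul_b, mul_c]
  symm
  calc x ^ u.a * y ^ u.b * z ^ u.c * (x ^ v.a * y ^ v.b * z ^ v.c)
      = x ^ u.a * y ^ u.b * (z ^ u.c * (x ^ v.a * y ^ v.b)) * z ^ v.c := by group
    _ = x ^ u.a * (y ^ u.b * x ^ v.a) * y ^ v.b * z ^ u.c * z ^ v.c := by rw [← hz']; group
    _ = x ^ u.a * x ^ v.a * y ^ u.b * (z ^ (v.a * u.b) * y ^ v.b) * z ^ u.c * z ^ v.c := by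
      rw [heis_comm x y z hz h]; group
    _ = _ := by rw [← hz']; group)

lemma hphi_ker {G : Type} [Group G] (x y z : G) (hz : ∀ g, g * z = z * g)
    (h : y * x = x * y * z) (p : ℕ) (hp : p.Prime) (he : ∀ g : G, g ^ p = 1) (h1 : z ≠ 1) :
    (hphi x y z hz h).ker = RR p := by
  have := Fact.mk hp
  have ho : orderOf z = p := orderOf_eq_prime (he z) h1
  have hd : ∀ k : ℤ, z ^ k = 1 → (p : ℤ) ∣ k := by
    intro k hk; rw [← ho]; exact orderOf_dvd_iff_zpow_eq_one.2 hk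
  have hd' : ∀ (g : G) (k : ℤ), (p : ℤ) ∣ k → g ^ k = 1 := by
    rintro g k ⟨m, rfl⟩; rw [zpow_mul, zpow_natCast, he, one_zpow]
  ext u
  constructor
  · intro hu
    have hu' : hphi x y z hz h u = 1 := hu
    have key : ∀ v : HZ, hphi x y z hz h (u * v * u⁻¹ * v⁻¹) = 1 := by
      intro v; simp [hu']
    have k1 := key ⟨0, 1, 0⟩
    have k2 := key ⟨1, 0, 0⟩
    simp only [hphi, MonoidHom.mk'_apply, mul_a, mul_b, mul_c, inv_a, inv_b, inv_c] at k1 k2 hu'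
    ring_nf at k1 k2
    simp only [zpow_zero, one_mul] at k1 k2
    have a1 : (p : ℤ) ∣ u.a := (dvd_neg).1 (hd _ k1)
    have a2 : (p : ℤ) ∣ u.b := hd _ k2
    rw [hd' x _ a1, hd' y _ a2, one_mul, one_mul] at hu'
    exact ⟨a1, a2, hd _ hu'⟩
  · rintro ⟨a1, a2, a3⟩
    show x ^ u.a * y ^ u.b * z ^ u.c = 1
    rw [hd' x _ a1, hd' y _ a2, hd' z _ a3]; simp

abbrev X1 (p : ℕ) := Multiplicative (ZMod (p ^ 2))
abbrev X2 (p : ℕ) := HZ ⧸ RR p

lemma X1_not (p : ℕ) (hp : p.Prime) : ¬ ∀ x : X1 p, x ^ p = 1 := by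
  intro h
  have h1 := h (Multiplicative.ofAdd 1)
  rw [← ofAdd_nsmul] at h1
  have h2 : ((p : ℕ) : ZMod (p ^ 2)) = 0 := by simpa using h1
  rw [ZMod.natCast_eq_zero_iff] at h2
  have := Nat.le_of_dvd hp.pos h2
  have := hp.two_le
  nlinarith

lemma X2_not (p : ℕ) (hp : p.Prime) : ¬ ∀ x y : X2 p, x * y = y * x := by
  intro h
  have h1 := h (QuotientGroup.mk ⟨1, 0, 0⟩) (QuotientGroup.mk ⟨0, 1, 0⟩)
  rw [← QuotientGroup.mk_mul, ← QuotientGroup.mk_mul, QuotientGroup.eq] at h1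
  have h2 := h1.2.2
  simp at h2
  have h3 := hp.two_le
  have h4 := Int.le_of_dvd one_pos h2
  omega

lemma typ (D P Q R : Fm) (p : ℕ) (hp : p.Prime) (hD0 : D.mem PUnit)
    (hD1 : ∀ (G : Type) [Group G], D.mem G → (∀ x y : G, x * y = y * x) ∧ ∀ x : G, x ^ p = 1)
    (hD2 : ∀ (G : Type) [Group G], Nat.card G = p → D.mem G)
    (h1 : ¬ P ≤ D) (h2 : P ≤ Q ⊔ R) (h3 : P ⊓ Q ≤ D) (h4 : P ⊓ R ≤ D) :
    P.mem (X1 p) ∨ P.mem (X2 p) := by
  have := Fact.mk hp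
  obtain ⟨G, _, hP, hD, hq⟩ := exists_min P D h1
  have := P.ok.1 G hP
  obtain ⟨M, hMn, hMb, hM⟩ := monolith D hD0 hD hq
  have hX := bk_sup Q R (h2 G hP) (fun h => hD (h3 G ⟨hP, h⟩)) (fun h => hD (h4 G ⟨hP, h⟩)) M hM
  have hXD := hD1 _ (h3 _ ⟨bk_self P.ok M hP, hX.1⟩)
  have hc := XG_comm M hXD.1
  have hpw := XG_pow M p hXD.2
  have hQ := hD1 _ (hq M hMb)
  have hcm : ∀ a b : G, a * b * a⁻¹ * b⁻¹ ∈ M := by
    intro a b
    rw [← QuotientGroup.eq_one_iff]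
    simp only [QuotientGroup.mk_mul, QuotientGroup.mk_inv]
    rw [hQ.1 (a : G ⧸ M) b]; group
  have hsub := sub_all P.ok hP (fun a b => Subgroup.mem_center_iff.2 fun g =>
    (hc _ (hcm a b) g).symm)
  by_cases he : ∀ g : G, g ^ p = 1
  · right
    by_cases hab : ∀ x y : G, x * y = y * x
    · exfalso
      apply hD
      apply hD2
      have hn : ∀ H : Subgroup G, H.Normal := fun H => ⟨fun n hn g => by
        rw [hab g n]; simpa using hn⟩
      obtain ⟨⟨m, hm⟩, hm1⟩ := Subgroup.ne_bot_iff_exists_ne_one.1 hMb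
      have hm1' : m ≠ 1 := fun h => hm1 (Subtype.ext h)
      have ht : Subgroup.zpowers m = ⊤ := by
        rw [eq_top_iff]
        intro g _
        by_cases hg : g = 1
        · rw [hg]; exact Subgroup.one_mem _
        have a1 : Subgroup.zpowers m ≤ Subgroup.zpowers g :=
          (Subgroup.zpowers_le.2 hm).trans (hM _ (hn _) (by simpa using hg))
        have a2 : Subgroup.zpowers m = Subgroup.zpowers g := by
          refine Subgroup.eq_of_le_of_card_ge a1 ?_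
          rw [Nat.card_zpowers, Nat.card_zpowers, orderOf_eq_prime (he g) hg,
            orderOf_eq_prime (he m) hm1']
        rw [a2]; exact Subgroup.mem_zpowers g
      rw [← orderOf_eq_prime (he m) hm1', ← Nat.card_zpowers, ht, Subgroup.card_top]
    · push Not at hab
      obtain ⟨x, y, hxy⟩ := hab
      have hz : ∀ g : G, g * (y⁻¹ * x⁻¹ * y⁻¹⁻¹ * x⁻¹⁻¹) = (y⁻¹ * x⁻¹ * y⁻¹⁻¹ * x⁻¹⁻¹) * g :=
        fun g => (hc _ (hcm _ _) g).symm
      have h : y * x = x * y * (y⁻¹ * x⁻¹ * y⁻¹⁻¹ * x⁻¹⁻¹) := by group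
      have hk := hphi_ker x y _ hz h p hp he (fun h0 => hxy (by rw [h, h0, mul_one]))
      exact P.ok.iso ((QuotientGroup.quotientKerEquivRange _).symm.trans
        (QuotientGroup.quotientMulEquivOfEq hk)) (hsub (hphi x y _ hz h).range)
  · left
    push Not at he
    obtain ⟨g, hg⟩ := he
    have a1 : g ^ p ∈ M := by
      rw [← QuotientGroup.eq_one_iff, QuotientGroup.mk_pow]; exact hQ.2 _
    have a2 : orderOf g = p ^ 2 := by
      apply orderOf_eq_prime_pow (n := 1)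
      · simpa using hg
      · rw [pow_succ, pow_one, pow_mul]; exact hpw _ a1
    refine P.ok.iso (mulEquivOfCyclicCardEq ?_) (hsub (Subgroup.zpowers g))
    rw [Nat.card_zpowers, a2]; simp

def O : Fm := ⟨fun G _ => Subsingleton G, fun G _ h => Finite.of_subsingleton,
  fun G H _ _ f hf h => hf.subsingleton, fun G _ N1 N2 _ _ hb h1 h2 => by
    refine ⟨fun a b => ?_⟩
    have : a⁻¹ * b ∈ N1 ⊓ N2 := ⟨QuotientGroup.eq.1 (Subsingleton.elim _ _),
      QuotientGroup.eq.1 (Subsingleton.elim _ _)⟩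
    rw [hb] at this
    exact inv_mul_eq_one.1 this⟩

def Em : Fm := ⟨fun _ _ => False, fun _ _ h => h.elim, fun _ _ _ _ _ _ h => h,
  fun _ _ _ _ _ _ _ h _ => h⟩

def Ap (p : ℕ) : Fm := ⟨fun G _ => Finite G ∧ (∀ x y : G, x * y = y * x) ∧ ∀ x : G, x ^ p = 1,
  fun G _ h => h.1,
  fun G H _ _ f hf h => ⟨have := h.1; Finite.of_surjective f hf, fun x y => by
      obtain ⟨x, rfl⟩ := hf x; obtain ⟨y, rfl⟩ := hf y; rw [← map_mul, h.2.1, map_mul],
    fun x => by obtain ⟨x, rfl⟩ := hf x; rw [← map_pow, h.2.2, map_one]⟩,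
  fun G _ N1 N2 _ _ hb h1 h2 => ⟨phi_fin.2.2 G N1 N2 hb h1.1 h2.1, fun x y => by
      have : (x * y)⁻¹ * (y * x) ∈ N1 ⊓ N2 := ⟨QuotientGroup.eq.1 (h1.2.1 (x : G ⧸ N1) y),
        QuotientGroup.eq.1 (h2.2.1 (x : G ⧸ N2) y)⟩
      rw [hb] at this
      exact inv_mul_eq_one.1 this,
    fun x => by
      have : x ^ p ∈ N1 ⊓ N2 := ⟨(QuotientGroup.eq_one_iff _).1 (h1.2.2 (x : G ⧸ N1)),
        (QuotientGroup.eq_one_iff _).1 (h2.2.2 (x : G ⧸ N2))⟩
      rw [hb] at this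
      exact this⟩⟩

lemma exists_prime (D : Fm) (h : ¬ D ≤ O) (hs : ∀ (G : Type) [Group G], D.mem G → IsSolvable G) :
    ∃ (S : Type) (_ : Group S), D.mem S ∧ (Nat.card S).Prime ∧ ∀ x y : S, x * y = y * x := by
  obtain ⟨S, _, hS, hO, hq⟩ := exists_min D O h
  have hnt : Nontrivial S := not_subsingleton_iff_nontrivial.1 hO
  have : IsSimpleGroup S := ⟨fun N hN => by
    by_cases hb : N = ⊥
    · exact Or.inl hb
    · right
      have : Subsingleton (S ⧸ N) := hq N hb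
      rw [eq_top_iff]
      intro x _
      exact (QuotientGroup.eq_one_iff x).1 (Subsingleton.elim _ _)⟩
  have hc := IsSimpleGroup.comm_iff_isSolvable.2 (hs S hS)
  refine ⟨S, _, hS, ?_, hc⟩
  letI : CommGroup S := { (inferInstance : Group S) with mul_comm := hc }
  exact IsSimpleGroup.prime_card

theorem main (F : Fm) (hs : ∀ (G : Type) [Group G], F.mem G → IsSolvable G)
    (h : Fm → ℕ) (h4 : ∀ x, h x ≤ 4) (hh : ∀ x y, x < y → y ≤ F → h x < h y)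
    (A B C : Fm) (hA : A ≤ F) (hB : B ≤ F) (hC : C ≤ F) :
    A ⊓ (B ⊔ C) ≤ (A ⊓ B) ⊔ (A ⊓ C) := by
  by_contra hcon
  have nBA : ¬ B ≤ A := fun hle => hcon (by
    rw [inf_comm, sup_inf_assoc_of_le C hle]
    exact sup_le_sup (le_inf hle le_rfl) (inf_comm C A).le)
  have nCA : ¬ C ≤ A := fun hle => hcon (by
    rw [inf_comm, sup_comm, sup_inf_assoc_of_le B hle, sup_comm]
    exact sup_le_sup (inf_comm B A).le (le_inf hle le_rfl))
  have nBC : ¬ B ≤ C := fun hle => hcon (by rw [sup_eq_right.2 hle]; exact le_sup_right)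
  have nCB : ¬ C ≤ B := fun hle => hcon (by rw [sup_eq_left.2 hle]; exact le_sup_left)
  have ne : ∀ X Y : Fm, ¬ X ≤ Y → X.mem PUnit := by
    intro X Y hXY
    by_contra h0
    exact hXY fun G _ hG => (h0 (X.ok.triv hG)).elim
  have uA := (ne _ _ hcon).1
  have uB := ne _ _ nBA
  have uC := ne _ _ nCA
  obtain ⟨G, _, hP, hK, hq⟩ := exists_min _ _ hcon
  have := A.ok.1 G hP.1
  obtain ⟨M, hMn, hMb, hM⟩ := monolith _ ((le_sup_left : A ⊓ B ≤ (A ⊓ B) ⊔ (A ⊓ C)) _ ⟨uA, uB⟩)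
    hK hq
  have gB : ¬ B.mem G := fun hG => hK ((le_sup_left : A ⊓ B ≤ (A ⊓ B) ⊔ (A ⊓ C)) _ ⟨hP.1, hG⟩)
  have gC : ¬ C.mem G := fun hG => hK ((le_sup_right : A ⊓ C ≤ (A ⊓ B) ⊔ (A ⊓ C)) _ ⟨hP.1, hG⟩)
  have hX := bk_sup B C hP.2 gB gC M hM
  set D := A ⊓ (B ⊓ C) with hD
  have hXD : D.mem (XG M) := ⟨bk_self A.ok M hP.1, hX⟩
  have nDO : ¬ D ≤ O := fun hle =>
    not_subsingleton_iff_nontrivial.2 (XG_nontrivial M hMb) (hle _ hXD)
  have OD : ∀ X : Fm, X.mem PUnit → O ≤ X := fun X hX G _ hG =>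
    have : Subsingleton G := hG
    X.ok.triv hX
  have uD : D.mem PUnit := ⟨uA, uB, uC⟩
  have DF : D ≤ F := inf_le_left.trans hA
  have hO : 1 ≤ h O := by
    have : Em < O := lt_of_le_not_ge (fun _ _ h => h.elim) (fun hle =>
      hle PUnit (inferInstance : Subsingleton PUnit))
    have := hh _ _ this ((OD D uD).trans DF)
    omega
  have h2 : ∀ X : Fm, X.mem PUnit → ¬ X ≤ O → X ≤ F → 2 ≤ h X := by
    intro X hX1 hX2 hX3
    have := hh O X (lt_of_le_not_ge (OD X hX1) hX2) hX3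
    omega
  have hD2 := h2 D uD nDO DF
  have up : ∀ X Y : Fm, X ≤ F → Y ≤ F → ¬ Y ≤ X → h X < h (X ⊔ Y) := fun X Y a b c =>
    hh _ _ (left_lt_sup.2 c) (sup_le a b)
  have dn : ∀ X Y : Fm, X ≤ F → ¬ X ≤ Y → h (X ⊓ Y) < h X := fun X Y a c =>
    hh _ _ (inf_lt_left.2 c) a
  have eqD : ∀ X : Fm, D ≤ X → X ≤ F → h X ≤ 2 → X ≤ D := by
    intro X a b c
    by_contra hc
    have := hh D X (lt_of_le_not_ge a hc) b
    omega
  have eqF : ∀ X : Fm, X ≤ F → 4 ≤ h X → F ≤ X := by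
    intro X a c
    by_contra hc
    have := hh X F (lt_of_le_not_ge a hc) le_rfl
    have := h4 F
    omega
  have nAB : ¬ A ≤ B := fun hle => gB (hle G hP.1)
  have nAC : ¬ A ≤ C := fun hle => gC (hle G hP.1)
  have pair : ∀ X Y : Fm, D ≤ X → D ≤ Y → X ≤ F → Y ≤ F → ¬ X ≤ Y → ¬ Y ≤ X →
      X ⊓ Y ≤ D ∧ F ≤ X ⊔ Y := by
    intro X Y a b c d e f
    have b1 := up X Y c d f
    have b2 := dn X Y c e
    have b3 := h4 (X ⊔ Y)
    have b4 := h2 (X ⊓ Y) (le_inf a b _ uD) (fun hle => nDO ((le_inf a b).trans hle))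
      (inf_le_left.trans c)
    exact ⟨eqD _ (le_inf a b) (inf_le_left.trans c) (by omega), eqF _ (sup_le c d) (by omega)⟩
  have dA : D ≤ A := inf_le_left
  have dB : D ≤ B := inf_le_right.trans inf_le_left
  have dC : D ≤ C := inf_le_right.trans inf_le_right
  have pAB := pair A B dA dB hA hB nAB nBA
  have pAC := pair A C dA dC hA hC nAC nCA
  have pBC := pair B C dB dC hB hC nBC nCB
  have hDle : h D ≤ 2 := by
    have b1 := up A B hA hB nBA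
    have b2 := hh D A (lt_of_le_not_ge dA fun hle => nAB (hle.trans dB)) hA
    have b3 := h4 (A ⊔ B)
    omega
  obtain ⟨S, _, hS, hp, hSc⟩ := exists_prime D nDO (fun G _ hG => hs G (DF G hG))
  set p := Nat.card S with hpd
  have := Fact.mk hp
  have hSA : (Ap p).mem S := ⟨D.ok.1 S hS, hSc, fun x => pow_card_eq_one'⟩
  have DA : D ≤ Ap p := by
    by_contra hc
    have b1 := dn D (Ap p) DF hc
    have b2 := h2 (D ⊓ Ap p) ((D ⊓ Ap p).ok.triv (G := S) ⟨hS, hSA⟩) (fun hle => by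
      have : Subsingleton S := hle S ⟨hS, hSA⟩
      have := Nat.card_of_subsingleton (1 : S)
      exact hp.one_lt.ne' this) (inf_le_left.trans DF)
    omega
  have hD1 : ∀ (G : Type) [Group G], D.mem G → (∀ x y : G, x * y = y * x) ∧ ∀ x : G, x ^ p = 1 :=
    fun G _ hG => (DA G hG).2
  have hD3 : ∀ (G : Type) [Group G], Nat.card G = p → D.mem G := fun G _ hG =>
    D.ok.iso (mulEquivOfPrimeCardEq (p := p) rfl hG) hS
  have tA := typ D A B C p hp uD hD1 hD3 (fun hle => nAB (hle.trans dB)) (hA.trans pBC.2) pAB.1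
    pAC.1
  have tB := typ D B A C p hp uD hD1 hD3 (fun hle => nBA (hle.trans dA)) (hB.trans pAC.2)
    ((inf_comm B A).le.trans pAB.1) pBC.1
  have tC := typ D C A B p hp uD hD1 hD3 (fun hle => nCA (hle.trans dA)) (hC.trans pAB.2)
    ((inf_comm C A).le.trans pAC.1) ((inf_comm C B).le.trans pBC.1)
  have n1 : ¬ D.mem (X1 p) := fun hx => X1_not p hp (hD1 _ hx).2
  have n2 : ¬ D.mem (X2 p) := fun hx => X2_not p hp (hD1 _ hx).1
  rcases tA with a | a <;> rcases tB with b | b <;> rcases tC with c | c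
  · exact n1 (pAB.1 _ ⟨a, b⟩)
  · exact n1 (pAB.1 _ ⟨a, b⟩)
  · exact n1 (pAC.1 _ ⟨a, c⟩)
  · exact n2 (pBC.1 _ ⟨b, c⟩)
  · exact n1 (pBC.1 _ ⟨b, c⟩)
  · exact n2 (pAC.1 _ ⟨a, c⟩)
  · exact n2 (pAB.1 _ ⟨a, b⟩)
  · exact n2 (pAB.1 _ ⟨a, b⟩)

end Pool.Agent.H.MP_4f47f1_al
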